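import Pool.Agent.X284.KS.Tow2
import Pool.Agent.X309.TwDefs

/-!
The exceptional characters of conductor composed of given primes.
-/

set_option autoImplicit false

namespace Pool.Agent.X284.TP

open Pool.Agent.TH940 (GH tot G_level G_congr)

lemma prim_cond {q : ℕ} [NeZero q] {χ : DirichletCharacter ℂ q} (h : χ.IsPrimitive)
    (G : (q : ℕ) → DirichletCharacter ℂ q → ℕ) :
    G χ.conductor χ.primitiveCharacter = G q χ := by
  refine G_congr G h _ _ fun a => ?_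
  by_cases hc : IsUnit (a : ZMod q)
  · have h1 := χ.changeLevel_primitiveCharacter
    have h2 : (DirichletCharacter.changeLevel χ.conductor_dvd_level χ.primitiveCharacter)
        (a : ZMod q) = χ.primitiveCharacter ((a : ZMod q).cast) :=
      DirichletCharacter.changeLevel_eq_cast_of_dvd _ χ.conductor_dvd_level hc.unit
    rw [h1] at h2
    rw [h2]
    congr 1
    rw [ZMod.cast_intCast χ.conductor_dvd_level]
  · have hc2 : ¬ IsUnit (a : ZMod χ.conductor) := by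
      rwa [show χ.conductor = q from h]
    rw [MulChar.map_nonunit _ hc, MulChar.map_nonunit _ hc2]

lemma inj_level {Q : ℕ} [NeZero Q] {x y : Σ q : ℕ, DirichletCharacter ℂ q} (hx : x.1 ∣ Q)
    (hy : y.1 ∣ Q) (px : x.2.IsPrimitive) (py : y.2.IsPrimitive)
    (h : DirichletCharacter.changeLevel hx x.2 = DirichletCharacter.changeLevel hy y.2) : x = y := by
  obtain ⟨q, χ⟩ := x
  obtain ⟨r, ψ⟩ := y
  simp only at hx hy px py h
  have e1 := DirichletCharacter.conductor_changeLevel χ hx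
  have e2 := DirichletCharacter.conductor_changeLevel ψ hy
  have e3 : q = r := by
    have : χ.conductor = ψ.conductor := by rw [← e1, ← e2, h]
    rw [← show χ.conductor = q from px, ← show ψ.conductor = r from py, this]
  subst e3
  have e4 : χ = ψ := DirichletCharacter.changeLevel_injective hx h
  rw [e4]

/-- the total order of vanishing of finitely many characters with conductors composed of the primes
in `S` -/
theorem smooth_sum {N : ℕ} {K : ℝ} {G : (q : ℕ) → DirichletCharacter ℂ q → ℕ} (hG : GH N K G)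
    {ε : ℝ} (hε : 0 < ε) : ∃ C : ℝ, 0 < C ∧ ∀ S : Finset ℕ, (∀ p ∈ S, p.Prime ∧ ¬ p ∣ N) →
      ∀ E : Finset (Σ q : ℕ, DirichletCharacter ℂ q),
        (∀ x ∈ E, 1 ≤ x.1 ∧ x.1.primeFactors ⊆ S ∧ x.2.IsPrimitive) →
        ((∑ x ∈ E, G x.1 x.2 : ℕ) : ℝ) ≤ C * (∏ p ∈ S, (p : ℝ)) ^ (4 + ε) := by
  classical
  obtain ⟨C, hC, h⟩ := Pool.Agent.X284.KS.Tow.tot_rad hG hε
  refine ⟨C, hC, fun S hS E hE => ?_⟩
  set Q : ℕ := ∏ x ∈ E, x.1 with hQ
  have hQ0 : Q ≠ 0 := Finset.prod_ne_zero_iff.2 fun x hx => by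
    have := (hE x hx).1
    omega
  have : NeZero Q := ⟨hQ0⟩
  have hQ1 : 1 ≤ Q := Nat.one_le_iff_ne_zero.2 hQ0
  have hdiv : ∀ x ∈ E, x.1 ∣ Q := fun x hx => Finset.dvd_prod_of_mem _ hx
  have hpf : Q.primeFactors ⊆ S := by
    intro p hp
    have hpp := Nat.prime_of_mem_primeFactors hp
    have hpd := Nat.dvd_of_mem_primeFactors hp
    obtain ⟨x, hx, hxd⟩ := (Prime.dvd_finset_prod_iff hpp.prime _).1 hpd
    exact (hE x hx).2.1 (Nat.mem_primeFactors.2 ⟨hpp, hxd, by have := (hE x hx).1; omega⟩)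
  have hQN : Nat.Coprime Q N := by
    rw [Nat.coprime_iff_gcd_eq_one]
    by_contra hne
    obtain ⟨p, hp, hpd⟩ := Nat.exists_prime_and_dvd hne
    have h1 : p ∣ Q := hpd.trans (Nat.gcd_dvd_left _ _)
    have h2 : p ∣ N := hpd.trans (Nat.gcd_dvd_right _ _)
    exact (hS p (hpf (Nat.mem_primeFactors.2 ⟨hp, h1, hQ0⟩))).2 h2
  have h1 := h Q hQ1 hQN
  have h2n : (∏ p ∈ Q.primeFactors, p) ≤ ∏ p ∈ S, p :=
    Finset.prod_le_prod_of_subset_of_one_le' hpf fun p hp _ => (hS p hp).1.one_le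
  have h2 : (∏ p ∈ Q.primeFactors, (p : ℝ)) ≤ ∏ p ∈ S, (p : ℝ) := by
    rw [← Nat.cast_prod, ← Nat.cast_prod]
    exact Nat.cast_le.2 h2n
  have h3 : (0 : ℝ) ≤ ∏ p ∈ Q.primeFactors, (p : ℝ) := Finset.prod_nonneg fun p _ => Nat.cast_nonneg p
  have h4 : (∏ p ∈ Q.primeFactors, (p : ℝ)) ^ (4 + ε) ≤ (∏ p ∈ S, (p : ℝ)) ^ (4 + ε) :=
    Real.rpow_le_rpow h3 h2 (by linarith)
  refine le_trans ?_ (h1.trans (mul_le_mul_of_nonneg_left h4 hC.le))
  have key : (∑ x ∈ E, G x.1 x.2) ≤ tot G Q := by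
    unfold Pool.Agent.TH940.tot
    rw [finsum_eq_sum_of_fintype]
    set φ : {x // x ∈ E} → DirichletCharacter ℂ Q := fun x =>
      DirichletCharacter.changeLevel (hdiv x.1 x.2) x.1.2 with hφ
    have hinj : Function.Injective φ := by
      intro x y hxy
      exact Subtype.ext (inj_level (hdiv x.1 x.2) (hdiv y.1 y.2) (hE x.1 x.2).2.2
        (hE y.1 y.2).2.2 hxy)
    rw [← Finset.sum_attach]
    have e1 : ∀ x ∈ E.attach, G x.1.1 x.1.2 = G (φ x).conductor (φ x).primitiveCharacter := by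
      intro x _
      have hx0 : NeZero x.1.1 := ⟨by have := (hE x.1 x.2).1; omega⟩
      rw [hφ]
      show _ = G (DirichletCharacter.changeLevel (hdiv x.1 x.2) x.1.2).conductor
        (DirichletCharacter.changeLevel (hdiv x.1 x.2) x.1.2).primitiveCharacter
      rw [G_level G (hdiv x.1 x.2) x.1.2, prim_cond (hE x.1 x.2).2.2 G]
    rw [Finset.sum_congr rfl e1, ← Finset.sum_image (f := fun χ : DirichletCharacter ℂ Q =>
      G χ.conductor χ.primitiveCharacter) (s := E.attach) (g := φ) (fun x _ y _ h => hinj h)]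
    exact Finset.sum_le_sum_of_subset (Finset.subset_univ _)
  exact_mod_cast key

/-- all but finitely many of them have order zero -/
theorem smooth_exc {N : ℕ} {K : ℝ} {G : (q : ℕ) → DirichletCharacter ℂ q → ℕ} (hG : GH N K G)
    {ε : ℝ} (hε : 0 < ε) : ∃ C : ℝ, 0 < C ∧ ∀ S : Finset ℕ, (∀ p ∈ S, p.Prime ∧ ¬ p ∣ N) →
      ∃ E : Finset (Σ q : ℕ, DirichletCharacter ℂ q),
        (E.card : ℝ) ≤ C * (∏ p ∈ S, (p : ℝ)) ^ (4 + ε) ∧
        ∀ x : (Σ q : ℕ, DirichletCharacter ℂ q), 1 ≤ x.1 → x.1.primeFactors ⊆ S →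
          x.2.IsPrimitive → (G x.1 x.2 : ℝ) ≤ C * (∏ p ∈ S, (p : ℝ)) ^ (4 + ε) ∧
            (x ∉ E → G x.1 x.2 = 0) := by
  classical
  obtain ⟨C, hC, h⟩ := smooth_sum hG hε
  refine ⟨C, hC, fun S hS => ?_⟩
  set B : ℝ := C * (∏ p ∈ S, (p : ℝ)) ^ (4 + ε) with hB
  set A : Set (Σ q : ℕ, DirichletCharacter ℂ q) :=
    {x | (1 ≤ x.1 ∧ x.1.primeFactors ⊆ S ∧ x.2.IsPrimitive) ∧ G x.1 x.2 ≠ 0} with hA
  have hcard : ∀ E : Finset (Σ q : ℕ, DirichletCharacter ℂ q), (E : Set _) ⊆ A →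
      (E.card : ℝ) ≤ B := by
    intro E hE
    have h1 := h S hS E fun x hx => (hE hx).1
    refine le_trans ?_ h1
    have h2 : E.card ≤ ∑ x ∈ E, G x.1 x.2 := by
      rw [Finset.card_eq_sum_ones]
      refine Finset.sum_le_sum fun x hx => ?_
      exact Nat.one_le_iff_ne_zero.2 (hE hx).2
    exact_mod_cast h2
  have hfin : A.Finite := by
    by_contra hinf
    have hinf' : A.Infinite := hinf
    obtain ⟨n, hn⟩ := exists_nat_gt B
    obtain ⟨t, ht, htc⟩ := hinf'.exists_subset_card_eq n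
    have := hcard t ht
    rw [htc] at this
    linarith
  refine ⟨hfin.toFinset, hcard _ (by simp), fun x h1 h2 h3 => ⟨?_, fun hx => ?_⟩⟩
  · have h4 := h S hS {x} (by
      intro y hy
      rw [Finset.mem_singleton] at hy
      subst hy
      exact ⟨h1, h2, h3⟩)
    rw [Finset.sum_singleton] at h4
    exact h4
  · by_contra hne
    exact hx (hfin.mem_toFinset.2 ⟨⟨h1, h2, h3⟩, hne⟩)

end Pool.Agent.X284.TP
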